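import Pool.Agent.H27.L1.H23.GU.SNU
import Pool.Agent.H27.L1.H76.GU.Targets

/-!
Board gu: the singular part vanishes on cusp forms.
-/

namespace Pool.Agent.H27.L1.H23.GU

open MeasureTheory Pool.Agent.H27.L1.H34.GM Pool.Agent.H27.L1.H34.GZ Pool.Agent.H27.L1.H34.GU

lemma unit_aN {m : ℕ} {c : ZM m} (hc : IsUnit c) (z : Mat m) : aN (cR c * z) = aN z := by
  unfold aN
  rw [Matrix.det_mul, cR_det, abs_mul]
  have h1 : IsUnit c.det := (Matrix.isUnit_iff_isUnit_det c).1 hc
  have h2 : |((c.det : ℤ) : ℝ)| = 1 := by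
    rcases Int.isUnit_iff.1 h1 with h | h <;> simp [h]
  rw [h2, one_mul]

lemma kk_unit {m : ℕ} {c : ZM m} (hc : IsUnit c) (r : ℝ) (z : Mat m) (α : ZM m) (g : Mat m) :
    kk r (cR c * z) (cR (c * α)) g = kk r z (cR α) g := by
  unfold kk
  rw [unit_aN hc, cR_mul, Matrix.mul_inv_rev]
  congr 1
  have h1 : IsUnit (cR c).det := (unit_det hc).isUnit
  rw [Matrix.mul_assoc z⁻¹ (cR c)⁻¹, ← Matrix.mul_assoc (cR c)⁻¹, Matrix.nonsing_inv_mul _ h1,
    Matrix.one_mul]

lemma Pu1_smul {m : ℕ} (k N : ℕ) (u : V m) : (1 : Mat m) + (N : ℝ) • nk k u =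
    Pu1 k ((N : ℝ) • u) := by
  unfold Pu1
  rw [nk_smul]

lemma zero_rows {m k : ℕ} {β : ZM m} (hβ : KL β = VK m k) (i j : Fin m) (hi : (i : ℕ) < k) :
    β i j = 0 := by
  have h1 : (Pi.single i (1 : ℤ) : Fin m → ℤ) ∈ VK m k := by
    intro l hl
    rw [Pi.single_apply, if_neg]
    rintro rfl
    omega
  rw [← hβ] at h1
  have h2 : Matrix.vecMul (Pi.single i (1 : ℤ)) β = 0 := h1
  rw [Matrix.single_one_vecMul] at h2
  exact congrFun h2 j

lemma nk_zero_rows {m k : ℕ} {β : ZM m} (hβ : KL β = VK m k) (u : V m) :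
    nk k u * cR β = 0 := by
  ext i j
  rw [Matrix.mul_apply, Matrix.zero_apply]
  refine Finset.sum_eq_zero fun l _ => ?_
  by_cases h : (l : ℕ) < k
  · have : cR β l j = 0 := by simp [cR, zero_rows hβ l j h]
    rw [this, mul_zero]
  · have : nk k u i l = 0 := by
      simp only [nk, Matrix.of_apply]
      rw [if_neg]
      omega
    rw [this, zero_mul]

lemma kk_Pu1 {m k : ℕ} {β : ZM m} (hβ : KL β = VK m k) (v : V m) (r : ℝ) (z g : Mat m) :
    kk r (Pu1 k v * z) (cR β) g = kk r z (cR β) g := by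
  unfold kk
  have h1 : aN (Pu1 k v * z) = aN z := by
    unfold aN
    rw [Matrix.det_mul, Pu1_det, one_mul]
  have h2 : Pu1 k v * cR β = cR β := by
    unfold Pu1
    rw [add_mul, one_mul, nk_zero_rows hβ, add_zero]
  have h3 : (Pu1 k v)⁻¹ * cR β = cR β := by
    have h4 : IsUnit (Pu1 k v).det := by rw [Pu1_det]; exact isUnit_one
    calc (Pu1 k v)⁻¹ * cR β = (Pu1 k v)⁻¹ * (Pu1 k v * cR β) := by rw [h2]
      _ = cR β := by rw [← Matrix.mul_assoc, Matrix.nonsing_inv_mul _ h4, Matrix.one_mul]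
  rw [h1, Matrix.mul_inv_rev, Matrix.mul_assoc z⁻¹, h3]

lemma kk_meas {m : ℕ} (r : ℝ) (α g : Mat m) :
    Measurable fun z : V m => (fun i j => kk r (mt z) α g i j : V m) := by
  refine measurable_pi_lambda _ fun i => measurable_pi_lambda _ fun j => ?_
  have hdet : Measurable fun z : V m => (mt z).det := det_cont.measurable
  have haN : Measurable fun z : V m => aN (mt z) := by
    unfold aN
    have h2 : Measurable fun z : V m => |(mt z).det| := (continuous_abs.comp det_cont).measurable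
    exact h2.pow_const _
  have hmt : Continuous fun z : V m => mt z := by
    refine continuous_matrix fun i j => ?_
    show Continuous fun z : V m => z i j
    fun_prop
  have hinv : ∀ i j : Fin m, Measurable fun z : V m => (mt z)⁻¹ i j := by
    intro i j
    have h1 : (fun z : V m => (mt z)⁻¹ i j) = fun z => ((mt z).det)⁻¹ * (mt z).adjugate i j := by
      funext z
      rw [Matrix.inv_def, Ring.inverse_eq_inv', Matrix.smul_apply, smul_eq_mul]
    rw [h1]
    have h2 : Continuous fun z : V m => (mt z).adjugate i j :=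
      (hmt.matrix_adjugate).matrix_elem i j
    exact hdet.inv.mul h2.measurable
  have h3 : (fun z : V m => kk r (mt z) α g i j) = fun z : V m =>
      (r⁻¹ * aN (mt z) / aN g) * ∑ l, (∑ l', (mt z)⁻¹ i l' * α l' l) * g l j := by
    funext z
    unfold kk
    rw [Matrix.smul_apply, smul_eq_mul, Matrix.mul_apply]
    simp only [Matrix.mul_apply]
  rw [h3]
  refine Measurable.mul ((measurable_const.mul haN).div_const _) ?_
  refine Finset.measurable_fun_sum _ fun l _ => Measurable.mul ?_ measurable_const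
  exact Finset.measurable_fun_sum _ fun l' _ => (hinv i l').mul measurable_const


end Pool.Agent.H27.L1.H23.GU
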