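import Pool.Agent.H27.L1.H34.GU.Defs

/-!
Targets for the singular part (board gu, page H34_GU.md): the left kernel of a singular integer
matrix, weights on the shell, unfolding.
-/

namespace Pool.Agent.H27.L1.H34.GU

open MeasureTheory Pool.Agent.H27.L1.H34.GM Pool.Agent.H27.L1.H34.GZ

/-- the left kernel of an integer matrix -/
def KL {m : ℕ} (α : ZM m) : Set (Fin m → ℤ) := {c | Matrix.vecMul c α = 0}

/-- the integer vectors supported on the first `k` coordinates -/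
def VK (m k : ℕ) : Set (Fin m → ℤ) := {c | ∀ j : Fin m, k ≤ (j : ℕ) → c j = 0}

/-- the stabiliser of `VK` in `GL_m(Z)`: block lower triangular matrices -/
def PK (m k : ℕ) : Set (ZM m) :=
  {p | IsUnit p ∧ ∀ c : Fin m → ℤ, c ∈ VK m k ↔ Matrix.vecMul c p ∈ VK m k}

/-- the integer matrices supported in the rows `≥ k` and the columns `< k` -/
def BK (m k : ℕ) : Set (ZM m) := {C | ∀ i j : Fin m, C i j ≠ 0 → (j : ℕ) < k ∧ k ≤ (i : ℕ)}

/-- the left kernel of a singular matrix is, up to `GL_m(Z)`, a coordinate space -/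
def T_SNA : Prop := ∀ (m : ℕ) (α : ZM m), α.det = 0 → α ≠ 0 →
  ∃ k : ℕ, 0 < k ∧ k < m ∧ ∃ γ : ZM m, IsUnit γ ∧ KL (γ * α) = VK m k

/-- weights on the shell -/
def T_SNW : Prop := ∀ m k : ℕ, 0 < k → k < m → ∃ ω κ : V m → ENNReal,
  Measurable ω ∧ Measurable κ ∧ (∀ z, ω z ≤ 1 ∧ κ z ≤ 1) ∧
  ∀ z : V m, (mt z).det ≠ 0 →
    (∀ u : V m, ω (fun i j => ((1 + nk k u) * mt z) i j) = ω z) ∧
    ∑' C : BK m k, κ (fun i j => ((1 + cR C.1) * mt z) i j) = 1 ∧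
    ∑' p : PK m k, ω (fun i j => (cR p.1 * mt z) i j) * κ (fun i j => (cR p.1 * mt z) i j) = 1

/-- the sum over the singular matrices vanishes on the average -/
def T_SNU : Prop := ∀ (m N : ℕ) (D : Set (V m)), 1 ≤ m → 1 ≤ N → DomZ m D →
  ∀ G : ZM m → V m → ℂ, (∀ α, Measurable (G α)) →
  (∀ (c α : ZM m) (z : V m), IsUnit c → (mt z).det ≠ 0 →
    G (c * α) (fun i j => (cR c * mt z) i j) = G α z) →
  (∀ (α : ZM m) (z : V m), α.det ≠ 0 → G α z = 0) → (∀ z, G 0 z = 0) →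
  ∫⁻ z in D, ∑' α : ZM m, ENNReal.ofReal ‖G α z‖ ∂(hm m) < ⊤ →
  (∀ k : ℕ, 0 < k → k < m → ∀ β : ZM m, KL β = VK m k → ∀ z : V m, (mt z).det ≠ 0 →
    ∫ u in Set.Icc (0 : V m) 1, G β (fun i j => ((1 + (N : ℝ) • nk k u) * mt z) i j) = 0) →
  ∫ z in D, ∑' α : ZM m, G α z ∂(hm m) = 0

end Pool.Agent.H27.L1.H34.GU
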