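import Pool.Agent.H27.L1.H23.GU.SGV
import Pool.Agent.H27.L1.H23.GU.BRG
import Pool.Agent.H27.L1.H44.GMF.HAR
import Pool.Agent.H27.L1.H85.GZ.UNZ
import Pool.Agent.H27.L1.H55.GV.OMG
import Pool.Agent.H27.L1.H13.GU.KAP
import Pool.Agent.H27.L1.H67.GU.BLK
import Pool.Agent.H27.L1.H84.GU.RHO
import Pool.Agent.H27.L1.H80.GU.ORB
import Pool.Agent.H27.L1.H75.GU.SNA

/-!
Board gu: the singular part of cusp forms, all rows of this part put together.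
-/

namespace Pool.Agent.H27.L1.H23.GU

open Pool.Agent.H27.L1.H76.GU

theorem pf_SNW : Pool.Agent.H27.L1.H34.GU.T_SNW :=
  snw_of_rho (Pool.Agent.H27.L1.H84.GU.pf_RHO Pool.Agent.H27.L1.H67.GU.pf_BLK Pool.Agent.H27.L1.H13.GU.pf_KAP
    Pool.Agent.H27.L1.H55.GV.pf_OMG) (Pool.Agent.H27.L1.H80.GU.pf_ORB Pool.Agent.H27.L1.H75.GU.pf_SNA)

end Pool.Agent.H27.L1.H23.GU
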