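import Pool.Agent.H27.L1.H23.GU.SNT

/-!
Board gu: real unipotent matrices and the exchange of the weights.
-/

namespace Pool.Agent.H27.L1.H23.GU

open MeasureTheory Pool.Agent.H27.L1.H34.GM Pool.Agent.H27.L1.H34.GZ Pool.Agent.H27.L1.H34.GU

/-- left multiplication -/
noncomputable def lm {m : ℕ} (a : Mat m) (z : V m) : V m := fun i j => (a * mt z) i j

lemma mt_lm {m : ℕ} (a : Mat m) (z : V m) : mt (lm a z) = a * mt z := by
  ext i j
  rfl

lemma lm_lm {m : ℕ} (a b : Mat m) (z : V m) : lm a (lm b z) = lm (a * b) z := by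
  funext i j
  show (a * mt (lm b z)) i j = (a * b * mt z) i j
  rw [mt_lm, Matrix.mul_assoc]

lemma lm_one {m : ℕ} (z : V m) : lm 1 z = z := by
  funext i j
  show ((1 : Mat m) * mt z) i j = z i j
  rw [Matrix.one_mul]
  rfl

/-- the real unipotent matrices -/
noncomputable def Pu1 {m : ℕ} (k : ℕ) (v : V m) : Mat m := 1 + nk k v

lemma nk_add {m : ℕ} (k : ℕ) (u v : V m) : nk k (u + v) = nk k u + nk k v := by
  ext i j
  simp only [nk, Matrix.of_apply, Matrix.add_apply, Pi.add_apply]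
  split_ifs <;> simp

lemma nk_smul {m : ℕ} (k : ℕ) (c : ℝ) (v : V m) : nk k (c • v) = c • nk k v := by
  ext i j
  simp only [nk, Matrix.of_apply, Matrix.smul_apply, Pi.smul_apply]
  split_ifs <;> simp

lemma nk_mul {m : ℕ} (k : ℕ) (u v : V m) : nk k u * nk k v = 0 := by
  ext i j
  simp only [Matrix.mul_apply, nk, Matrix.of_apply, Matrix.zero_apply]
  refine Finset.sum_eq_zero fun l _ => ?_
  by_cases h1 : (l : ℕ) < k ∧ k ≤ (i : ℕ)
  · have h2 : ¬((j : ℕ) < k ∧ k ≤ (l : ℕ)) := by omega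
    rw [if_neg h2, mul_zero]
  · rw [if_neg h1, zero_mul]

lemma Pu1_mul {m : ℕ} (k : ℕ) (u v : V m) : Pu1 k u * Pu1 k v = Pu1 k (u + v) := by
  unfold Pu1
  rw [nk_add, mul_add, add_mul, add_mul, nk_mul]
  simp only [mul_one, one_mul, add_zero]
  rw [add_assoc]

lemma Pu1_zero {m : ℕ} (k : ℕ) : Pu1 k (0 : V m) = 1 := by
  unfold Pu1
  have : nk k (0 : V m) = 0 := by
    ext i j
    simp [nk]
  rw [this, add_zero]

lemma Pu1_det {m : ℕ} (k : ℕ) (v : V m) : (Pu1 k v).det = 1 := by
  have h : (Pu1 k v).BlockTriangular OrderDual.toDual := by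
    intro i j hij
    have hij' : i < j := hij
    have h1 : ¬((j : ℕ) < k ∧ k ≤ (i : ℕ)) := by
      have : (i : ℕ) < (j : ℕ) := hij'
      omega
    simp only [Pu1, Matrix.add_apply, nk, Matrix.of_apply, if_neg h1, add_zero]
    exact Matrix.one_apply_ne hij'.ne
  rw [Matrix.det_of_isLowerTriangular _ h]
  refine Finset.prod_eq_one fun i _ => ?_
  have h1 : ¬((i : ℕ) < k ∧ k ≤ (i : ℕ)) := by omega
  simp [Pu1, nk, h1]

/-- the real vector of an integer matrix -/
def cv {m : ℕ} (C : ZM m) : V m := fun i j => ((C i j : ℤ) : ℝ)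

lemma one_add_cR {m k : ℕ} {C : ZM m} (hC : C ∈ BK m k) : 1 + cR C = Pu1 k (cv C) := by
  unfold Pu1
  congr 1
  ext i j
  by_cases h : C i j = 0
  · simp [cR, nk, cv, h]
  · have := hC i j h
    simp [cR, nk, cv, this]

lemma cv_neg {m : ℕ} (C : ZM m) : cv (-C) = - cv C := by
  funext i j
  simp [cv]

lemma BK_neg {m k : ℕ} {C : ZM m} (hC : C ∈ BK m k) : -C ∈ BK m k := by
  intro i j h
  exact hC i j (by intro h0; exact h (by simp [h0]))

/-- negation on the block -/
def negB (m k : ℕ) : BK m k ≃ BK m k where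
  toFun C := ⟨-C.1, BK_neg C.2⟩
  invFun C := ⟨-C.1, BK_neg C.2⟩
  left_inv C := by ext1; simp
  right_inv C := by ext1; simp

lemma aN_lm {m : ℕ} {a : Mat m} (ha : a.det = 1) (z : V m) : aN (mt (lm a z)) = aN (mt z) := by
  rw [mt_lm]
  unfold aN
  rw [Matrix.det_mul, ha, one_mul]

lemma shell_lm {m : ℕ} {a : Mat m} (ha : a.det = 1) (z : V m) :
    lm a z ∈ Shell m ↔ z ∈ Shell m := by
  show (1 ≤ aN (mt (lm a z)) ∧ _) ↔ _
  rw [aN_lm ha]
  rfl

lemma shell_det {m : ℕ} (hm : 1 ≤ m) {z : V m} (hz : z ∈ Shell m) : (mt z).det ≠ 0 := by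
  intro h
  have h1 : 1 ≤ aN (mt z) := hz.1
  unfold aN at h1
  rw [h, abs_zero, Real.zero_rpow] at h1
  · linarith
  · have : (m : ℝ) ≠ 0 := by positivity
    exact one_div_ne_zero this

lemma lm_cont {m : ℕ} (a : Mat m) : Continuous (lm a) := by
  refine continuous_pi fun i => continuous_pi fun j => ?_
  show Continuous fun z : V m => ∑ l, a i l * z l j
  fun_prop

lemma det_cont {m : ℕ} : Continuous fun z : V m => (mt z).det := by
  have : Continuous fun z : V m => mt z := by
    refine continuous_matrix fun i j => ?_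
    show Continuous fun z : V m => z i j
    fun_prop
  exact this.matrix_det

lemma shell_meas (m : ℕ) : MeasurableSet (Shell m) := by
  have h1 : Measurable fun z : V m => aN (mt z) := by
    unfold aN
    have h2 : Measurable fun z : V m => |(mt z).det| := (continuous_abs.comp det_cont).measurable
    exact h2.pow_const _
  exact (measurableSet_le measurable_const h1).inter (measurableSet_lt h1 measurable_const)

/-- left translation by a matrix of determinant one on the shell -/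
lemma shell_trans {m : ℕ} (hm1 : 1 ≤ m) (hH : T_HAR) {a : Mat m} (ha : a.det = 1)
    (f : V m → ENNReal) (hf : Measurable f) :
    ∫⁻ z in Shell m, f (lm a z) ∂(hm m) = ∫⁻ z in Shell m, f z ∂(hm m) := by
  have h1 := ((hH m hm1).1 a (by rw [ha]; exact one_ne_zero) ((Shell m).indicator f)
    (hf.indicator (shell_meas m))).1
  rw [← lintegral_indicator (shell_meas m), ← lintegral_indicator (shell_meas m), ← h1]
  refine lintegral_congr fun z => ?_
  by_cases hz : z ∈ Shell m
  · rw [Set.indicator_of_mem hz]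
    have : lm a z ∈ Shell m := (shell_lm ha z).2 hz
    exact (Set.indicator_of_mem this f).symm
  · rw [Set.indicator_of_notMem hz]
    have : lm a z ∉ Shell m := fun h => hz ((shell_lm ha z).1 h)
    exact (Set.indicator_of_notMem this f).symm

/-- the unipotent matrix with the parameter `N u` -/
noncomputable def Av {m : ℕ} (N k : ℕ) (p : V m × V m) : V m := lm (Pu1 k ((N : ℝ) • p.2)) p.1

lemma nk_cont {m : ℕ} (k : ℕ) (i j : Fin m) : Continuous fun v : V m => nk k v i j := by
  unfold nk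
  simp only [Matrix.of_apply]
  split_ifs
  · fun_prop
  · fun_prop

lemma lmP_cont {m : ℕ} (k : ℕ) : Continuous fun p : V m × V m => lm (Pu1 k p.2) p.1 := by
  refine continuous_pi fun i => continuous_pi fun j => ?_
  show Continuous fun p : V m × V m => ∑ l, Pu1 k p.2 i l * p.1 l j
  refine continuous_finsetSum _ fun l _ => ?_
  refine Continuous.mul ?_ (by fun_prop)
  show Continuous fun p : V m × V m => (1 : Mat m) i l + nk k p.2 i l
  exact continuous_const.add ((nk_cont k i l).comp continuous_snd)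

lemma Av_cont {m : ℕ} (N k : ℕ) : Continuous (Av (m := m) N k) := by
  have h : Av (m := m) N k = (fun p : V m × V m => lm (Pu1 k p.2) p.1) ∘
      fun p => (p.1, (N : ℝ) • p.2) := rfl
  rw [h]
  exact (lmP_cont k).comp (by fun_prop)

/-- the properties of the weights -/
structure Wt (m k : ℕ) (ω κ : V m → ENNReal) : Prop where
  m1 : Measurable ω
  m2 : Measurable κ
  le : ∀ z, ω z ≤ 1 ∧ κ z ≤ 1
  inv : ∀ z : V m, (mt z).det ≠ 0 → ∀ u : V m, ω (lm (Pu1 k u) z) = ω z
  blk : ∀ z : V m, (mt z).det ≠ 0 → ∑' C : BK m k, κ (lm (Pu1 k (cv C.1)) z) = 1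
  par : ∀ z : V m, (mt z).det ≠ 0 → ∑' p : PK m k, ω (lm (cR p.1) z) * κ (lm (cR p.1) z) = 1

lemma exWt (h : T_SNW) (m k : ℕ) (h0 : 0 < k) (h1 : k < m) :
    ∃ ω κ : V m → ENNReal, Wt m k ω κ := by
  obtain ⟨ω, κ, a1, a2, a3, a4⟩ := h m k h0 h1
  refine ⟨ω, κ, a1, a2, a3, fun z hz u => (a4 z hz).1 u, fun z hz => ?_, fun z hz => (a4 z hz).2.2⟩
  rw [← (a4 z hz).2.1]
  refine tsum_congr fun C => ?_
  rw [← one_add_cR C.2]
  rfl

lemma det_lmP {m : ℕ} (k : ℕ) (u : V m) {z : V m} (hz : (mt z).det ≠ 0) :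
    (mt (lm (Pu1 k u) z)).det ≠ 0 := by
  rw [mt_lm, Matrix.det_mul, Pu1_det, one_mul]
  exact hz

/-- the exchange of the weights -/
lemma exch {m N k : ℕ} (hm1 : 1 ≤ m) (hH : T_HAR) {ω κ : V m → ENNReal} (hW : Wt m k ω κ)
    (Θ : V m → ENNReal) (hΘ : Measurable Θ)
    (hinv : ∀ C ∈ BK m k, ∀ z : V m, (mt z).det ≠ 0 → Θ (lm (Pu1 k (cv C)) z) = Θ z) :
    ∫⁻ z in Shell m, ω z * κ z * Θ z ∂(hm m) =
      ∫⁻ z in Shell m, ω z * κ z * (∫⁻ u in Set.Icc (0 : V m) 1, Θ (Av N k (z, u))) ∂(hm m) := by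
  classical
  have hvol : (volume : Measure (V m)) (Set.Icc 0 1) = 1 := by
    have h1 : (volume : Measure (Fin m → ℝ)) (Set.Icc 0 1) = 1 := by
      rw [Real.volume_Icc_pi]
      simp
    have h2 : (Set.Icc (0 : V m) 1) = Set.pi Set.univ fun _ => Set.Icc (0 : Fin m → ℝ) 1 := by
      rw [Set.pi_univ_Icc]
      rfl
    rw [h2, MeasureTheory.volume_pi_pi]
    simp [h1]
  have hS : SFinite (hm m) := by unfold hm; infer_instance
  have : Countable (BK m k) := by
    have : Countable (ZM m) := inferInstanceAs (Countable (Fin m → Fin m → ℤ))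
    infer_instance
  have hc1 : ∀ C : BK m k, Measurable fun p : V m × V m =>
      κ (lm (Pu1 k (cv C.1)) (lm (Pu1 k (-((N : ℝ) • p.2))) p.1)) := by
    intro C
    have h1 : Continuous fun p : V m × V m => lm (Pu1 k (-((N : ℝ) • p.2))) p.1 :=
      (lmP_cont k).comp (by fun_prop : Continuous fun p : V m × V m => (p.1, -((N : ℝ) • p.2)))
    exact hW.m2.comp (((lm_cont _).comp h1).measurable)
  have hc2 : ∀ C : BK m k, Measurable fun p : V m × V m =>
      ω p.1 * κ p.1 * Θ p.1 * κ (lm (Pu1 k (cv C.1)) (lm (Pu1 k (-((N : ℝ) • p.2))) p.1)) := by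
    intro C
    exact (((hW.m1.comp measurable_fst).mul (hW.m2.comp measurable_fst)).mul
      (hΘ.comp measurable_fst)).mul (hc1 C)
  have hA : Measurable (Av (m := m) N k) := (Av_cont N k).measurable
  have hc3 : Measurable fun p : V m × V m => ω p.1 * κ p.1 * Θ (Av N k p) :=
    ((hW.m1.comp measurable_fst).mul (hW.m2.comp measurable_fst)).mul (hΘ.comp hA)
  have hc4 : ∀ C : BK m k, Measurable fun p : V m × V m =>
      ω p.1 * κ p.1 * Θ (Av N k p) * κ (lm (Pu1 k (cv (negB m k C).1)) (Av N k p)) := by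
    intro C
    exact hc3.mul (hW.m2.comp ((lm_cont _).measurable.comp hA))
  calc ∫⁻ z in Shell m, ω z * κ z * Θ z ∂(hm m)
      = ∫⁻ z in Shell m, (∫⁻ u in Set.Icc (0 : V m) 1, ∑' C : BK m k, ω z * κ z * Θ z *
          κ (lm (Pu1 k (cv C.1)) (lm (Pu1 k (-((N : ℝ) • u))) z))) ∂(hm m) := by
        refine setLIntegral_congr_fun (shell_meas m) fun z hz => ?_
        have h1 : ∀ u : V m, ∑' C : BK m k, ω z * κ z * Θ z *
            κ (lm (Pu1 k (cv C.1)) (lm (Pu1 k (-((N : ℝ) • u))) z)) = ω z * κ z * Θ z := by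
          intro u
          rw [ENNReal.tsum_mul_left, hW.blk _ (det_lmP k _ (shell_det hm1 hz)), mul_one]
        simp only [h1]
        rw [setLIntegral_const, hvol, mul_one]
    _ = ∫⁻ u in Set.Icc (0 : V m) 1, ∫⁻ z in Shell m, ∑' C : BK m k, ω z * κ z * Θ z *
          κ (lm (Pu1 k (cv C.1)) (lm (Pu1 k (-((N : ℝ) • u))) z)) ∂(hm m) := by
        refine lintegral_lintegral_swap ?_
        exact (Measurable.tsum hc2).aemeasurable
    _ = ∫⁻ u in Set.Icc (0 : V m) 1, ∫⁻ z in Shell m, ∑' C : BK m k, ω z * κ z *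
          Θ (Av N k (z, u)) * κ (lm (Pu1 k (cv (negB m k C).1)) (Av N k (z, u))) ∂(hm m) := by
        refine lintegral_congr fun u => ?_
        rw [lintegral_tsum fun C => ?_, lintegral_tsum fun C => ?_]
        · refine tsum_congr fun C => ?_
          have hd : (Pu1 k ((N : ℝ) • u - cv C.1)).det = 1 := Pu1_det _ _
          rw [← shell_trans hm1 hH hd (fun z => ω z * κ z * Θ z *
            κ (lm (Pu1 k (cv C.1)) (lm (Pu1 k (-((N : ℝ) • u))) z)))
            ((hc2 C).comp (measurable_id.prodMk measurable_const))]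
          refine setLIntegral_congr_fun (shell_meas m) fun z hz => ?_
          have hz' := shell_det hm1 hz
          have e1 : lm (Pu1 k (cv C.1)) (lm (Pu1 k (-((N : ℝ) • u)))
              (lm (Pu1 k ((N : ℝ) • u - cv C.1)) z)) = z := by
            rw [lm_lm, lm_lm, Pu1_mul, Pu1_mul]
            have : cv C.1 + -((N : ℝ) • u) + ((N : ℝ) • u - cv C.1) = 0 := by abel
            rw [this, Pu1_zero, lm_one]
          have e2 : lm (Pu1 k ((N : ℝ) • u - cv C.1)) z =
              lm (Pu1 k (cv (negB m k C).1)) (Av N k (z, u)) := by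
            unfold Av
            rw [lm_lm, Pu1_mul]
            have : cv (negB m k C).1 = - cv C.1 := cv_neg _
            rw [this]
            congr 2
            abel
          show ω (lm (Pu1 k ((N : ℝ) • u - cv C.1)) z) * κ (lm (Pu1 k ((N : ℝ) • u - cv C.1)) z) *
            Θ (lm (Pu1 k ((N : ℝ) • u - cv C.1)) z) * κ (lm (Pu1 k (cv C.1))
              (lm (Pu1 k (-((N : ℝ) • u))) (lm (Pu1 k ((N : ℝ) • u - cv C.1)) z))) = _
          rw [e1, hW.inv z hz', e2, hinv _ (negB m k C).2 _ (show (mt (Av N k (z, u))).det ≠ 0 from det_lmP k _ hz')]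
          ring
        · exact ((hc4 C).comp (measurable_id.prodMk measurable_const)).aemeasurable
        · exact ((hc2 C).comp (measurable_id.prodMk measurable_const)).aemeasurable
    _ = ∫⁻ u in Set.Icc (0 : V m) 1, ∫⁻ z in Shell m, ω z * κ z * Θ (Av N k (z, u)) ∂(hm m) := by
        refine lintegral_congr fun u => ?_
        refine setLIntegral_congr_fun (shell_meas m) fun z hz => ?_
        have hz' := shell_det hm1 hz
        show ∑' C : BK m k, ω z * κ z * Θ (Av N k (z, u)) *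
          κ (lm (Pu1 k (cv (negB m k C).1)) (Av N k (z, u))) = _
        rw [ENNReal.tsum_mul_left,
          (negB m k).tsum_eq (fun C : BK m k => κ (lm (Pu1 k (cv C.1)) (Av N k (z, u)))),
          hW.blk _ (show (mt (Av N k (z, u))).det ≠ 0 from det_lmP k _ hz'), mul_one]
    _ = ∫⁻ z in Shell m, (∫⁻ u in Set.Icc (0 : V m) 1, ω z * κ z * Θ (Av N k (z, u)))
          ∂(hm m) := by
        refine (lintegral_lintegral_swap ?_).symm
        exact hc3.aemeasurable
    _ = _ := by
        refine lintegral_congr fun z => ?_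
        rw [lintegral_const_mul]
        exact hΘ.comp (hA.comp (measurable_const.prodMk measurable_id))

/-- the weighted measure on the shell -/
noncomputable def nuM (m : ℕ) (ω κ : V m → ENNReal) : Measure (V m) :=
  ((hm m).restrict (Shell m)).withDensity (fun z => ω z * κ z)

lemma lint_nuM {m : ℕ} {ω κ : V m → ENNReal} (h1 : Measurable ω) (h2 : Measurable κ)
    {f : V m → ENNReal} (hf : Measurable f) :
    ∫⁻ z, f z ∂(nuM m ω κ) = ∫⁻ z in Shell m, ω z * κ z * f z ∂(hm m) := by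
  have h := lintegral_withDensity_eq_lintegral_mul ((hm m).restrict (Shell m))
    (show Measurable (fun z => ω z * κ z) from h1.mul h2) hf
  exact h

instance sfin_hm (m : ℕ) : SFinite (hm m) := by unfold hm; infer_instance

instance sfin_nuM (m : ℕ) (ω κ : V m → ENNReal) : SFinite (nuM m ω κ) := by
  unfold nuM
  infer_instance

lemma exch_prod {m N k : ℕ} (hm1 : 1 ≤ m) (hH : T_HAR) {ω κ : V m → ENNReal} (hW : Wt m k ω κ)
    (Θ : V m → ENNReal) (hΘ : Measurable Θ)
    (hinv : ∀ C ∈ BK m k, ∀ z : V m, (mt z).det ≠ 0 → Θ (lm (Pu1 k (cv C)) z) = Θ z) :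
    ∫⁻ z, Θ z ∂(nuM m ω κ) =
      ∫⁻ p, Θ (Av N k p) ∂((nuM m ω κ).prod (volume.restrict (Set.Icc (0 : V m) 1))) := by
  have hc : Measurable fun p : V m × V m => Θ (Av N k p) := hΘ.comp (Av_cont N k).measurable
  rw [lintegral_prod _ hc.aemeasurable,
    lint_nuM hW.m1 hW.m2 hΘ, exch (N := N) hm1 hH hW Θ hΘ hinv, lint_nuM hW.m1 hW.m2]
  exact hc.lintegral_prod_right'

lemma exch_real {m N k : ℕ} (hm1 : 1 ≤ m) (hH : T_HAR) {ω κ : V m → ENNReal} (hW : Wt m k ω κ)
    (f : V m → ℝ) (hf : Measurable f)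
    (hinv : ∀ C ∈ BK m k, ∀ z : V m, (mt z).det ≠ 0 → f (lm (Pu1 k (cv C)) z) = f z)
    (hint : Integrable f (nuM m ω κ)) :
    Integrable (fun p => f (Av N k p))
      ((nuM m ω κ).prod (volume.restrict (Set.Icc (0 : V m) 1))) ∧
    ∫ z, f z ∂(nuM m ω κ) =
      ∫ p, f (Av N k p) ∂((nuM m ω κ).prod (volume.restrict (Set.Icc (0 : V m) 1))) := by
  have hA : Measurable (Av (m := m) N k) := (Av_cont N k).measurable
  have h1 : Integrable (fun p => f (Av N k p))
      ((nuM m ω κ).prod (volume.restrict (Set.Icc (0 : V m) 1))) := by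
    refine ⟨(hf.comp hA).aestronglyMeasurable, ?_⟩
    have h2 := exch_prod (N := N) hm1 hH hW (fun z => ‖f z‖ₑ) hf.enorm
      (fun C hC z hz => by rw [hinv C hC z hz])
    unfold HasFiniteIntegral
    rw [← h2]
    exact hint.2
  refine ⟨h1, ?_⟩
  rw [integral_eq_lintegral_pos_part_sub_lintegral_neg_part hint,
    integral_eq_lintegral_pos_part_sub_lintegral_neg_part h1,
    exch_prod (N := N) hm1 hH hW (fun z => ENNReal.ofReal (f z)) hf.ennreal_ofReal
      (fun C hC z hz => by rw [hinv C hC z hz]),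
    exch_prod (N := N) hm1 hH hW (fun z => ENNReal.ofReal (-f z)) hf.neg.ennreal_ofReal
      (fun C hC z hz => by rw [hinv C hC z hz])]

/-- the exchange of the weights, complex functions -/
lemma exch_cplx {m N k : ℕ} (hm1 : 1 ≤ m) (hH : T_HAR) {ω κ : V m → ENNReal} (hW : Wt m k ω κ)
    (f : V m → ℂ) (hf : Measurable f)
    (hinv : ∀ C ∈ BK m k, ∀ z : V m, (mt z).det ≠ 0 → f (lm (Pu1 k (cv C)) z) = f z)
    (hint : Integrable f (nuM m ω κ))
    (hz : ∀ᵐ z ∂(nuM m ω κ), ∫ u in Set.Icc (0 : V m) 1, f (Av N k (z, u)) = 0) :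
    ∫ z, f z ∂(nuM m ω κ) = 0 := by
  have hA : Measurable (Av (m := m) N k) := (Av_cont N k).measurable
  obtain ⟨a1, a2⟩ := exch_real (N := N) hm1 hH hW (fun z => (f z).re) (Complex.measurable_re.comp hf)
    (fun C hC z hz => by rw [hinv C hC z hz]) hint.re
  obtain ⟨b1, b2⟩ := exch_real (N := N) hm1 hH hW (fun z => (f z).im) (Complex.measurable_im.comp hf)
    (fun C hC z hz => by rw [hinv C hC z hz]) hint.im
  have h1 : Integrable (fun p => f (Av N k p))
      ((nuM m ω κ).prod (volume.restrict (Set.Icc (0 : V m) 1))) := by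
    refine ⟨(hf.comp hA).aestronglyMeasurable, ?_⟩
    have h2 := exch_prod (N := N) hm1 hH hW (fun z => ‖f z‖ₑ) hf.enorm
      (fun C hC z hz => by rw [hinv C hC z hz])
    unfold HasFiniteIntegral
    rw [← h2]
    exact hint.2
  have h2 : ∫ p, f (Av N k p) ∂((nuM m ω κ).prod (volume.restrict (Set.Icc (0 : V m) 1))) = 0 := by
    rw [integral_prod _ h1]
    exact integral_eq_zero_of_ae hz
  have h3 : ∫ z, f z ∂(nuM m ω κ) =
      ∫ p, f (Av N k p) ∂((nuM m ω κ).prod (volume.restrict (Set.Icc (0 : V m) 1))) := by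
    rw [← integral_re_add_im hint, ← integral_re_add_im h1]
    congr 1
    · exact congrArg _ a2
    · exact congrArg (fun t : ℝ => ((t : ℂ) * RCLike.I)) b2
  rw [h3, h2]

end Pool.Agent.H27.L1.H23.GU
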